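import Pool.Agent.helper3.AP.SpecG

/-! Project AP, row GFD: one discriminant. -/

set_option autoImplicit false

namespace Pool.Agent.AP

open Finset NumberField Pool.Agent.helper3.FT Pool.Agent.helper47.RA Pool.Agent.T5

theorem GFD (hSFA : SFA_stmt) (hGAI : GAI_stmt) (hGAP : GAP_stmt) (hGFF : GFF_stmt) : GFD_stmt := by
  classical
  intro p hp h5 ε hε
  have hodd : Odd p := hp.odd_of_ne_two (by omega)
  obtain ⟨C, hC1, hC⟩ := hGFF p h5 hodd ε hε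
  refine ⟨C, hC1, ?_⟩
  intro D₀ Y hD₀ hneg hY
  have hne : Nonempty (Fld D₀) := hSFA.2.2 D₀ hD₀ hneg
  have hQD : hne.some.Q.D = D₀ := hne.some.hD
  have hAp : cAp p D₀ Y = (IAp p hne.some.K Y).ncard := by
    unfold cAp
    rw [dif_pos hne]
  have hPr : cPr D₀ Y = (IPr hne.some.K Y).ncard := by
    unfold cPr
    rw [dif_pos hne]
  have hbase : {a : Ideal (𝓞 hne.some.K) | Ideal.absNorm a ≤ ⌊Y⌋₊}.Finite :=
    Ideal.finite_setOfPred_absNorm_le ⌊Y⌋₊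
  have hY0 : 0 ≤ Y := by linarith
  have hfin1 : (IAp p hne.some.K Y).Finite := hbase.subset fun a ha => by
    exact (Nat.le_floor_iff hY0).2 ha.2.2.2.2.2
  have hfin2 : (IPr hne.some.K Y).Finite := hbase.subset fun a ha => by
    exact (Nat.le_floor_iff hY0).2 ha.2.2.2.2
  have hfinI := hfin1.union hfin2
  set F : Finset (Ideal (𝓞 hne.some.K)) := hfinI.toFinset with hF
  set Fib : Ideal (𝓞 hne.some.K) → Set Q4 := fun a =>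
    {t : Q4 | 1 ≤ t.2.2.1 ∧ (t.1 : ℝ) * t.2.1 ≤ Y ∧ ∃ f : ℕ, 1 ≤ f ∧
      TK p hne.some.Q.D t.1 t.2.1 (t.2.2.1 * f) t.2.2.2 ∧
      aid hne.some.Q t.1 t.2.1 t.2.2.2 ((t.2.2.1 * f : ℕ) : ℤ) = a} with hFib
  have hfib : ∀ a, (Fib a).Finite ∧ ((Fib a).ncard : ℝ) ≤ C * Y ^ ε := fun a =>
    hC hne.some.K hne.some.Q Y a (by rw [hQD]; exact hneg) hY
  have hsub : {t : Q4 | 1 ≤ t.2.2.1 ∧ Y / 2 < (t.1 : ℝ) * t.2.1 ∧ (t.1 : ℝ) * t.2.1 ≤ Y ∧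
      ∃ f : ℕ, 1 ≤ f ∧ TK p D₀ t.1 t.2.1 (t.2.2.1 * f) t.2.2.2} ⊆ ⋃ a ∈ F, Fib a := by
    rintro t ⟨hy, hY1, hY2, f, hf, hT⟩
    have hT' : TK p hne.some.Q.D t.1 t.2.1 (t.2.2.1 * f) t.2.2.2 := by rw [hQD]; exact hT
    obtain ⟨-, hn, hprim⟩ := hGAI p hne.some.K hne.some.Q _ _ _ _ h5 hT'
    have hpow := hGAP p hne.some.K hne.some.Q _ _ _ _ h5 hodd hT'
    have hnR : ((Ideal.absNorm (aid hne.some.Q t.1 t.2.1 t.2.2.2 ((t.2.2.1 * f : ℕ) : ℤ)) : ℕ) : ℝ) =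
        (t.1 : ℝ) * t.2.1 := by
      rw [hn]
      push_cast
      ring
    have hbot : aid hne.some.Q t.1 t.2.1 t.2.2.2 ((t.2.2.1 * f : ℕ) : ℤ) ≠ ⊥ := by
      intro h0
      rw [h0, Ideal.absNorm_bot] at hnR
      rw [← hnR] at hY1
      push_cast at hY1
      linarith
    have hpr : (aid hne.some.Q t.1 t.2.1 t.2.2.2 ((t.2.2.1 * f : ℕ) : ℤ) ^ p).IsPrincipal := by
      rw [hpow]
      exact ⟨⟨_, rfl⟩⟩
    rw [Set.mem_iUnion₂]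
    refine ⟨aid hne.some.Q t.1 t.2.1 t.2.2.2 ((t.2.2.1 * f : ℕ) : ℤ), ?_, hy, hY2, f, hf, hT', rfl⟩
    rw [hF, Set.Finite.mem_toFinset]
    by_cases hP : (aid hne.some.Q t.1 t.2.1 t.2.2.2 ((t.2.2.1 * f : ℕ) : ℤ)).IsPrincipal
    · exact Or.inr ⟨hbot, hprim, hP, by rw [hnR]; exact hY1, by rw [hnR]; exact hY2⟩
    · exact Or.inl ⟨hbot, hprim, hpr, hP, by rw [hnR]; exact hY1, by rw [hnR]; exact hY2⟩
  have hUfin : (⋃ a ∈ F, Fib a).Finite := Set.Finite.biUnion F.finite_toSet fun a _ => (hfib a).1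
  refine ⟨hUfin.subset hsub, ?_⟩
  have h1 : ({t : Q4 | 1 ≤ t.2.2.1 ∧ Y / 2 < (t.1 : ℝ) * t.2.1 ∧ (t.1 : ℝ) * t.2.1 ≤ Y ∧
      ∃ f : ℕ, 1 ≤ f ∧ TK p D₀ t.1 t.2.1 (t.2.2.1 * f) t.2.2.2}.ncard : ℝ) ≤ ((⋃ a ∈ F, Fib a).ncard : ℝ) := by
    exact_mod_cast Set.ncard_le_ncard hsub hUfin
  have h2 : ((⋃ a ∈ F, Fib a).ncard : ℝ) ≤ ∑ a ∈ F, ((Fib a).ncard : ℝ) := by
    exact_mod_cast Finset.set_ncard_biUnion_le F Fib
  have h3 : ∑ a ∈ F, ((Fib a).ncard : ℝ) ≤ ∑ _a ∈ F, C * Y ^ ε := sum_le_sum fun a _ => (hfib a).2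
  have h4 : (#F : ℝ) ≤ (cAp p D₀ Y : ℝ) + cPr D₀ Y := by
    have h5 : #F = (IAp p hne.some.K Y ∪ IPr hne.some.K Y).ncard := by
      rw [hF, Set.ncard_eq_toFinset_card _ hfinI]
    rw [h5, hAp, hPr]
    exact_mod_cast Set.ncard_union_le _ _
  rw [sum_const, nsmul_eq_mul] at h3
  have h6 : 0 ≤ C * Y ^ ε := by positivity
  calc _ ≤ (#F : ℝ) * (C * Y ^ ε) := h1.trans (h2.trans h3)
    _ ≤ ((cAp p D₀ Y : ℝ) + cPr D₀ Y) * (C * Y ^ ε) := mul_le_mul_of_nonneg_right h4 h6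
    _ = C * Y ^ ε * ((cAp p D₀ Y : ℝ) + cPr D₀ Y) := mul_comm _ _

end Pool.Agent.AP
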