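import Pool.Agent.helper94.AP.SpecM

/-! Project AP, row MA: the sum over `(r, z, y)`. -/

set_option autoImplicit false

namespace Pool.Agent.AP

open Finset NumberField Pool.Agent.helper3.FT Pool.Agent.helper47.RA Pool.Agent.T5

theorem MA_PP (w : ℕ) : PP w ≠ 0 ∧ Squarefree (PP w) := by
  have h : PP w = primorial w := rfl
  rw [h]
  exact ⟨(primorial_pos w).ne', squarefree_primorial w⟩

/-- the size of `y` -/
theorem MA_ysz {p : ℕ} {N Y : ℝ} (hN : 1 ≤ N) {t : Q4} (ht : Bas p N Y t) (hr : 0 < t.1) :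
    (t.2.2.1 : ℝ) ≤ 2 * VV p N t.1 (Y / t.1) := by
  have hrR : (0 : ℝ) < (t.1 : ℝ) := by exact_mod_cast hr
  have hyR : (1 : ℝ) ≤ (t.2.2.1 : ℝ) := by exact_mod_cast ht.y1
  have hN0 : 0 < N := by linarith
  have hzY : (t.2.1 : ℝ) ≤ Y / t.1 := by
    rw [le_div_iff₀ hrR, mul_comm]
    exact ht.Y2
  have hz0 : (0 : ℝ) ≤ (t.2.1 : ℝ) := Nat.cast_nonneg _
  have hzp : (t.2.1 : ℝ) ^ p ≤ (Y / t.1) ^ p := pow_le_pow_left₀ hz0 hzY p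
  have hdp : dp p t * (t.2.2.1 : ℤ) ^ 2 = num p t := Int.ediv_mul_cancel ht.dv
  have hdpR : (dp p t : ℝ) * (t.2.2.1 : ℝ) ^ 2 = (t.2.2.2 : ℝ) ^ 2 - 4 * (t.1 : ℝ) * (t.2.1 : ℝ) ^ p := by
    have := congrArg (fun z : ℤ => (z : ℝ)) hdp
    unfold num at this
    push_cast at this
    exact this
  have hy2 : 0 < (t.2.2.1 : ℝ) ^ 2 := by positivity
  have h1 : N / 2 * (t.2.2.1 : ℝ) ^ 2 < 4 * (t.1 : ℝ) * (t.2.1 : ℝ) ^ p := by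
    have h2 : N / 2 * (t.2.2.1 : ℝ) ^ 2 < -(dp p t : ℝ) * (t.2.2.1 : ℝ) ^ 2 :=
      mul_lt_mul_of_pos_right ht.N1 hy2
    have h3 : 0 ≤ (t.2.2.2 : ℝ) ^ 2 := sq_nonneg _
    nlinarith
  have h4 : 4 * (t.1 : ℝ) * (t.2.1 : ℝ) ^ p ≤ 4 * (t.1 : ℝ) * (Y / t.1) ^ p :=
    mul_le_mul_of_nonneg_left hzp (by positivity)
  have hV0 : 0 ≤ VV p N t.1 (Y / t.1) := Real.sqrt_nonneg _
  have hA0 : 0 ≤ 4 * (t.1 : ℝ) * (Y / t.1) ^ p / N := by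
    apply div_nonneg _ hN0.le
    have h5 : 0 ≤ 4 * (t.1 : ℝ) * (t.2.1 : ℝ) ^ p := by positivity
    linarith
  have hV2 : VV p N t.1 (Y / t.1) ^ 2 = 4 * (t.1 : ℝ) * (Y / t.1) ^ p / N := Real.sq_sqrt hA0
  have hV3 : VV p N t.1 (Y / t.1) ^ 2 * N = 4 * (t.1 : ℝ) * (Y / t.1) ^ p := by
    rw [hV2, div_mul_cancel₀ _ hN0.ne']
  by_contra hc
  rw [not_le] at hc
  have h6 : (2 * VV p N t.1 (Y / t.1)) ^ 2 < (t.2.2.1 : ℝ) ^ 2 :=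
    pow_lt_pow_left₀ hc (by positivity) two_ne_zero
  nlinarith [mul_pos hN0 hy2, sq_nonneg (VV p N t.1 (Y / t.1))]

/-- the integers `x` for given `(r, z, y)` -/
theorem MA_mem {p w : ℕ} {N Y : ℝ} (hY : 1 ≤ Y) {r z y : ℕ} (hr : r ∈ (PP w).divisors)
    (hz : z ∈ Ioc ⌊Y / r / 2⌋₊ ⌊Y / r⌋₊) (hy : 1 ≤ y) (hc : Nat.Coprime y (r * z)) (x : ℤ) :
    (Bas p N Y (r, z, y, x) ∧ r ∣ PP w ∧ Loc w p (r, z, y, x)) ↔
      ((y : ℤ) ^ 2 ∣ num p (r, z, y, x) ∧ (r : ℤ) ∣ dp p (r, z, y, x) ∧ Loc w p (r, z, y, x) ∧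
        N / 2 < -(dp p (r, z, y, x) : ℝ) ∧ -(dp p (r, z, y, x) : ℝ) ≤ N) := by
  have hrd : r ∣ PP w := Nat.dvd_of_mem_divisors hr
  have hr0 : 0 < r := Nat.pos_of_mem_divisors hr
  have hrR : (0 : ℝ) < (r : ℝ) := by exact_mod_cast hr0
  rw [mem_Ioc] at hz
  have hYr : 0 ≤ Y / r := by positivity
  have hz1 : Y / r / 2 < z := (Nat.floor_lt (by positivity)).1 hz.1
  have hz2 : (z : ℝ) ≤ Y / r := (Nat.le_floor_iff hYr).1 hz.2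
  constructor
  · rintro ⟨hb, _, hl⟩
    exact ⟨hb.dv, hb.rD, hl, hb.N1, hb.N2⟩
  · rintro ⟨h1, h2, h3, h4, h5⟩
    refine ⟨⟨(MA_PP w).2.squarefree_of_dvd hrd, ?_, hy, hc, h1, h2, ?_, ?_, h4, h5⟩, hrd, h3⟩
    · show 1 ≤ z
      omega
    · rw [div_div, mul_comm (r : ℝ) 2, ← div_div, div_lt_iff₀ hrR] at hz1
      rw [mul_comm]
      exact hz1
    · rw [le_div_iff₀ hrR] at hz2
      rw [mul_comm]
      exact hz2

theorem MA_range {p w : ℕ} {N Y : ℝ} (hN : 1 ≤ N) (hY : 1 ≤ Y) {t : Q4} (ht : Bas p N Y t)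
    (hd : t.1 ∣ PP w) : t.1 ∈ (PP w).divisors ∧ t.2.1 ∈ Ioc ⌊Y / t.1 / 2⌋₊ ⌊Y / t.1⌋₊ ∧
      t.2.2.1 ∈ Ioc 0 ⌊2 * VV p N t.1 (Y / t.1)⌋₊ := by
  have hmem : t.1 ∈ (PP w).divisors := Nat.mem_divisors.2 ⟨hd, (MA_PP w).1⟩
  have hr0 : 0 < t.1 := Nat.pos_of_mem_divisors hmem
  have hrR : (0 : ℝ) < (t.1 : ℝ) := by exact_mod_cast hr0
  have hYr : 0 ≤ Y / t.1 := by positivity
  have hV0 : 0 ≤ VV p N t.1 (Y / t.1) := Real.sqrt_nonneg _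
  refine ⟨hmem, ?_, ?_⟩
  · rw [mem_Ioc]
    constructor
    · rw [Nat.floor_lt (by positivity), div_div, mul_comm (t.1 : ℝ) 2, ← div_div, div_lt_iff₀ hrR, mul_comm]
      exact ht.Y1
    · rw [Nat.le_floor_iff hYr, le_div_iff₀ hrR, mul_comm]
      exact ht.Y2
  · rw [mem_Ioc]
    exact ⟨ht.y1, (Nat.le_floor_iff (by positivity)).2 (MA_ysz hN ht hr0)⟩

theorem MA_nest {D : Finset ℕ} {I J : ℕ → Finset ℕ} {f g h : ℕ → ℕ → ℕ → ℝ}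
    (H : ∀ r ∈ D, ∀ z ∈ I r, ∀ y ∈ J r, |f r z y - g r z y| ≤ h r z y) :
    |(∑ r ∈ D, ∑ z ∈ I r, ∑ y ∈ J r, f r z y) - ∑ r ∈ D, ∑ z ∈ I r, ∑ y ∈ J r, g r z y| ≤
      ∑ r ∈ D, ∑ z ∈ I r, ∑ y ∈ J r, h r z y := by
  rw [← sum_sub_distrib]
  refine (abs_sum_le_sum_abs _ _).trans (sum_le_sum fun r hr => ?_)
  rw [← sum_sub_distrib]
  refine (abs_sum_le_sum_abs _ _).trans (sum_le_sum fun z hz => ?_)
  rw [← sum_sub_distrib]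
  exact (abs_sum_le_sum_abs _ _).trans (sum_le_sum fun y hy => H r hr z hz y hy)

theorem MA (hMX : MX_stmt) (hBF : BF_stmt) : MA_stmt := by
  classical
  intro p w N Y hw hN hY
  have hN0 : 0 < N := by linarith
  have hfin : {t : Q4 | Bas p N Y t ∧ t.1 ∣ PP w ∧ Loc w p t}.Finite :=
    (hBF p N Y hN0).subset fun t ht => ht.1
  set T : Finset Q4 := hfin.toFinset with hT
  have hTm : ∀ t, t ∈ T ↔ (Bas p N Y t ∧ t.1 ∣ PP w ∧ Loc w p t) := fun t => by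
    rw [hT, Set.Finite.mem_toFinset]
    rfl
  rw [Set.ncard_eq_toFinset_card _ hfin, ← hT]
  have hr : ∀ t ∈ T, t.1 ∈ (PP w).divisors ∧ t.2.1 ∈ Ioc ⌊Y / t.1 / 2⌋₊ ⌊Y / t.1⌋₊ ∧
      t.2.2.1 ∈ Ioc 0 ⌊2 * VV p N t.1 (Y / t.1)⌋₊ := fun t ht =>
    MA_range hN hY ((hTm t).1 ht).1 ((hTm t).1 ht).2.1
  -- the number of the elements of `T`
  have hcard : (#T : ℝ) = ∑ r ∈ (PP w).divisors, ∑ z ∈ Ioc ⌊Y / r / 2⌋₊ ⌊Y / r⌋₊,
      ∑ y ∈ Ioc 0 ⌊2 * VV p N r (Y / r)⌋₊,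
        (#{t ∈ T | t.1 = r ∧ t.2.1 = z ∧ t.2.2.1 = y} : ℝ) := by
    have c1 : #T = ∑ r ∈ (PP w).divisors, #{t ∈ T | t.1 = r} :=
      card_eq_sum_card_fiberwise fun t ht => (hr t ht).1
    rw [c1]
    push_cast
    refine sum_congr rfl fun r _ => ?_
    have c2 : #{t ∈ T | t.1 = r} = ∑ z ∈ Ioc ⌊Y / r / 2⌋₊ ⌊Y / r⌋₊,
        #{t ∈ {t ∈ T | t.1 = r} | t.2.1 = z} := by
      refine card_eq_sum_card_fiberwise fun t ht => ?_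
      have ht' := mem_filter.1 (mem_coe.1 ht)
      have h1 := (hr t ht'.1).2.1
      rw [ht'.2] at h1
      exact h1
    rw [c2]
    push_cast
    refine sum_congr rfl fun z _ => ?_
    have c3 : #{t ∈ {t ∈ T | t.1 = r} | t.2.1 = z} = ∑ y ∈ Ioc 0 ⌊2 * VV p N r (Y / r)⌋₊,
        #{t ∈ {t ∈ {t ∈ T | t.1 = r} | t.2.1 = z} | t.2.2.1 = y} := by
      refine card_eq_sum_card_fiberwise fun t ht => ?_
      have ht' := mem_filter.1 (mem_filter.1 (mem_coe.1 ht)).1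
      have h1 := (hr t ht'.1).2.2
      rw [ht'.2] at h1
      exact h1
    rw [c3]
    push_cast
    refine sum_congr rfl fun y _ => ?_
    rw [filter_filter, filter_filter]
  rw [hcard]
  apply MA_nest
  intro r hrD z hz y hy
  have hy1 : 1 ≤ y := (mem_Ioc.1 hy).1
  have hz1 : 1 ≤ z := Nat.one_le_iff_ne_zero.2 (by have := (mem_Ioc.1 hz).1; omega)
  by_cases hc : Nat.Coprime y (r * z)
  · rw [if_pos hc, if_pos hc]
    set F : Finset ℤ := ({t ∈ T | t.1 = r ∧ t.2.1 = z ∧ t.2.2.1 = y}).image (fun t => t.2.2.2) with hF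
    have hFc : #F = #{t ∈ T | t.1 = r ∧ t.2.1 = z ∧ t.2.2.1 = y} := by
      rw [hF]
      apply card_image_of_injOn
      intro a ha b hb hab
      have ha' := (mem_filter.1 (mem_coe.1 ha)).2
      have hb' := (mem_filter.1 (mem_coe.1 hb)).2
      obtain ⟨a1, a2, a3, a4⟩ := a
      obtain ⟨b1, b2, b3, b4⟩ := b
      simp only at ha' hb' hab
      obtain ⟨rfl, rfl, rfl⟩ := ha'
      obtain ⟨rfl, rfl, rfl⟩ := hb'
      rw [hab]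
    rw [← hFc]
    apply hMX p w r z y N hw (Nat.dvd_of_mem_divisors hrD) hz1 hy1 hN0 F
    intro x
    rw [← MA_mem hY hrD hz hy1 hc x, hF, mem_image]
    constructor
    · rintro ⟨t, ht, rfl⟩
      obtain ⟨h1, h2, h3, h4⟩ := mem_filter.1 ht
      obtain ⟨t1, t2, t3, t4⟩ := t
      simp only at h2 h3 h4
      subst h2 h3 h4
      exact (hTm _).1 h1
    · intro h
      exact ⟨(r, z, y, x), mem_filter.2 ⟨(hTm _).2 h, rfl, rfl, rfl⟩, rfl⟩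
  · rw [if_neg hc, if_neg hc]
    have h0 : {t ∈ T | t.1 = r ∧ t.2.1 = z ∧ t.2.2.1 = y} = ∅ := by
      rw [filter_eq_empty_iff]
      rintro ⟨t1, t2, t3, t4⟩ ht h
      simp only at h
      obtain ⟨rfl, rfl, rfl⟩ := h
      exact hc ((hTm _).1 ht).1.co
    rw [h0]
    simp

end Pool.Agent.AP
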